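import Pool.Agent.N662.FP.Stm

/-!
FL/LC (MP_de94ef_pr): log-concavity of the upper tail of the passage time.
-/

set_option autoImplicit false
open MeasureTheory ProbabilityTheory Filter Set
open scoped ENNReal Pointwise Topology

namespace Pool.Agent.N749.FL.LC

open Pool.Agent.N662.FP

theorem t_LC (h1 : S_WIN) (h2 : S_WM) (h3 : S_AE) (h4 : S_GE) : S_LC := by
  intro Ω _ _ X hX a v s t
  have hlim : ∀ t : ℝ, Tendsto (fun N : ℕ => (volume : Measure Ω) {ω | Win (env X ω) a v N t}) atTop
      (𝓝 ((volume : Measure Ω) {ω | t ≤ D (env X ω) a v})) := by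
    intro t
    have hae : (volume : Measure Ω) {ω | t ≤ D (env X ω) a v} =
        (volume : Measure Ω) (⋂ N : ℕ, {ω | Win (env X ω) a v N t}) := by
      refine measure_congr ?_
      filter_upwards [h3 Ω X hX] with ω hω
      refine propext ?_
      have h5 := (h4 (env X ω) hω a v).2.2.2 t
      constructor
      · intro h
        exact mem_iInter.2 (h5.1 h)
      · intro h
        exact h5.2 (mem_iInter.1 h)
    rw [hae]
    refine tendsto_measure_iInter_atTop (fun N => (h2 Ω X hX.meas a v N t).nullMeasurableSet) ?_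
      ⟨0, measure_ne_top _ _⟩
    intro M N hMN ω hω n hn p hp0 hpn hp
    exact hω n (hn.trans hMN) p hp0 hpn hp
  have hle : (volume : Measure Ω) {ω | s ≤ D (env X ω) a v} *
      (volume : Measure Ω) {ω | t ≤ D (env X ω) a v} ≤
      ((volume : Measure Ω) {ω | (s + t) / 2 ≤ D (env X ω) a v}) ^ 2 :=
    le_of_tendsto_of_tendsto'
      (ENNReal.Tendsto.mul (hlim s) (Or.inr (measure_ne_top _ _)) (hlim t)
        (Or.inr (measure_ne_top _ _)))
      (ENNReal.Tendsto.pow (hlim ((s + t) / 2))) fun N => h1 Ω X hX a v N s t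
  have h6 := ENNReal.toReal_mono (ENNReal.pow_ne_top (measure_ne_top _ _)) hle
  rw [ENNReal.toReal_mul, ENNReal.toReal_pow] at h6
  exact h6

end Pool.Agent.N749.FL.LC
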